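import Pool.Agent.H33.NFA.A
import Pool.Agent.H94.HYP.GDT

/-!
# NFA, ORB: equivalent pairs of matrices belong to the same class
-/

set_option autoImplicit false

namespace Pool.NFA

open Polynomial Matrix Pool.HYP

namespace ORBaux

variable {K : Type} [Field K]

theorem mm_eq {f : K[X]} (hf : f.Monic) (h : K[X]) :
    mulM f.natDegree f h =
      Algebra.leftMulMatrix (AdjoinRoot.powerBasis' hf).basis (AdjoinRoot.mk f h) := by
  ext i j
  rw [Algebra.leftMulMatrix_eq_repr_mul, PowerBasis.coe_basis]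
  simp only [AdjoinRoot.powerBasis'_gen, mulM, Matrix.of_apply]
  rw [← AdjoinRoot.mk_X, ← map_pow, ← map_mul]
  exact (AdjoinRoot.powerBasisAux'_repr_apply_to_fun hf _ i).symm ▸ rfl

theorem mm_mul {n : ℕ} {f : K[X]} (hf : f.Monic) (hn : f.natDegree = n) (g h : K[X]) :
    mulM n f (g * h) = mulM n f g * mulM n f h := by
  subst hn
  rw [mm_eq hf, mm_eq hf, mm_eq hf, map_mul, map_mul]
  rfl

theorem mm_one {n : ℕ} {f : K[X]} (hf : f.Monic) (hn : f.natDegree = n) :
    mulM n f 1 = 1 := by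
  subst hn
  rw [mm_eq hf, map_one, map_one]
  rfl

theorem mm_neg {n : ℕ} {f : K[X]} (h : K[X]) :
    mulM n f (-h) = - mulM n f h := by
  ext i j
  simp [mulM, Polynomial.neg_modByMonic]

theorem mm_congr {n : ℕ} {f : K[X]} (hf : f.Monic) {g h : K[X]} (hd : f ∣ g - h) :
    mulM n f g = mulM n f h := by
  ext i j
  simp only [mulM, Matrix.of_apply]
  rw [Polynomial.modByMonic_eq_of_dvd_sub hf (p₁ := g * X ^ (j : ℕ)) (p₂ := h * X ^ (j : ℕ))]
  rw [← sub_mul]
  exact hd.mul_right _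

/-- the first column. -/
theorem mm_inj {n : ℕ} {f : K[X]} (hf : f.Monic) (hn : f.natDegree = n) {g h : K[X]}
    (hd : mulM n f g = mulM n f h) : f ∣ g - h := by
  subst hn
  rw [mm_eq hf, mm_eq hf] at hd
  have h1 := Algebra.leftMulMatrix_injective (AdjoinRoot.powerBasis' hf).basis hd
  rw [← AdjoinRoot.mk_eq_mk]
  exact h1

theorem gr_tr (k n : ℕ) (f h : K[X]) : (gr k n f h)ᵀ = gr k n f h := by
  ext i j
  simp only [gr, Matrix.transpose_apply, Matrix.of_apply]
  rw [add_comm (j : ℕ) (i : ℕ)]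

theorem gr_sh (n : ℕ) (f h : K[X]) : gr 1 n f h = gr 0 n f (h * X) := by
  ext i j
  simp only [gr, of_apply]
  congr 1
  ring

theorem gr_mm {n : ℕ} {f : K[X]} (hf : f.Monic) (hn : f.natDegree = n) (h : K[X]) :
    gr 0 n f h = gr 0 n f 1 * mulM n f h := by
  subst hn
  exact gr_eq_mul hf 0 h

/-- multiplication by `X ^ j` of the first basis vector. -/
theorem mm_pow {n : ℕ} {f : K[X]} (hf : f.Monic) (hn : f.natDegree = n) (h0 : 0 < n) (h : K[X])
    (j : Fin n) :
    mulM n f (h * X ^ (j : ℕ)) *ᵥ Pi.single ⟨0, h0⟩ 1 = mulM n f h *ᵥ Pi.single j 1 := by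
  ext i
  rw [Matrix.mulVec_single_one, Matrix.mulVec_single_one]
  simp [mulM]

theorem comm_pow {n : ℕ} {f : K[X]} (hf : f.Monic) (hn : f.natDegree = n)
    {U : Matrix (Fin n) (Fin n) K} (hU : U * mulM n f X = mulM n f X * U) (j : ℕ) :
    U * mulM n f (X ^ j) = mulM n f (X ^ j) * U := by
  induction j with
  | zero => rw [pow_zero, mm_one hf hn, mul_one, one_mul]
  | succ j ih =>
    rw [pow_succ, mm_mul hf hn, ← mul_assoc, ih, mul_assoc, hU, mul_assoc]

theorem comm_eq {n : ℕ} {f : K[X]} (hf : f.Monic) (hn : f.natDegree = n) (h0 : 0 < n)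
    {U : Matrix (Fin n) (Fin n) K} (hU : U * mulM n f X = mulM n f X * U) :
    ∃ s : K[X], U = mulM n f s := by
  obtain ⟨s, hs⟩ : ∃ s : K[X], s = ∑ i : Fin n, C (U i ⟨0, h0⟩) * X ^ (i : ℕ) := ⟨_, rfl⟩
  have hdeg : s.degree < f.degree := by
    rw [degree_eq_natDegree hf.ne_zero, hn, hs]
    refine (degree_sum_le _ _).trans_lt ?_
    rw [Finset.sup_lt_iff (by simpa using WithBot.bot_lt_coe n)]
    intro j _
    exact (degree_C_mul_X_pow_le _ _).trans_lt (by exact_mod_cast j.2)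
  have hc : ∀ i : Fin n, s.coeff i = U i ⟨0, h0⟩ := by
    intro i
    rw [hs, finset_sum_coeff, Finset.sum_eq_single i]
    · simp
    · intro j _ hj
      rw [coeff_C_mul, coeff_X_pow, if_neg, mul_zero]
      exact fun h => hj (Fin.ext h.symm)
    · intro h
      exact absurd (Finset.mem_univ i) h
  have h1 : U *ᵥ Pi.single ⟨0, h0⟩ 1 = mulM n f s *ᵥ Pi.single ⟨0, h0⟩ 1 := by
    ext i
    rw [Matrix.mulVec_single_one, Matrix.mulVec_single_one]
    simp only [Matrix.col_apply, mulM, Matrix.of_apply, pow_zero, mul_one]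
    rw [(Polynomial.modByMonic_eq_self_iff hf).2 hdeg, hc]
  refine ⟨s, ?_⟩
  have h2 : ∀ j : Fin n, U *ᵥ Pi.single j 1 = mulM n f s *ᵥ Pi.single j 1 := by
    intro j
    have e1 := mm_pow hf hn h0 1 j
    rw [one_mul, mm_one hf hn, Matrix.one_mulVec] at e1
    rw [← mm_pow hf hn h0 s j, mm_mul hf hn, ← e1, Matrix.mulVec_mulVec, comm_pow hf hn hU,
      ← Matrix.mulVec_mulVec, h1, Matrix.mulVec_mulVec, ← mm_mul hf hn, ← mm_mul hf hn, mul_comm]
  ext i j
  have := congrFun (h2 j) i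
  rw [Matrix.mulVec_single_one, Matrix.mulVec_single_one] at this
  exact this

theorem core {n : ℕ} {f α β : K[X]} {A B : Matrix (Fin n) (Fin n) K} (hf : f.Monic)
    (hn : f.natDegree = n) (h0 : 0 < n) (hirr : Irreducible f) (hα : IsCoprime α f)
    (hβ : IsCoprime β f) (hA : A.det ≠ 0) (hB : B.det ≠ 0)
    (h1 : Aᵀ * gr 0 n f α * A = Bᵀ * gr 0 n f β * B)
    (h2 : Aᵀ * gr 1 n f α * A = Bᵀ * gr 1 n f β * B) :
    (∃ s : K[X], f ∣ α - β * s ^ 2) ∧ (α = β → A = B ∨ A = -B) := by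
  have hA' : IsUnit A.det := isUnit_iff_ne_zero.2 hA
  obtain ⟨U, hUdef⟩ : ∃ U, U = B * A⁻¹ := ⟨_, rfl⟩
  have hUA : U * A = B := by rw [hUdef, Matrix.nonsing_inv_mul_cancel_right _ _ hA']
  have hAi : A * A⁻¹ = 1 := Matrix.mul_nonsing_inv _ hA'
  have hAt : (A⁻¹)ᵀ * Aᵀ = 1 := by rw [← Matrix.transpose_mul, hAi, Matrix.transpose_one]
  have key : ∀ G H : Matrix (Fin n) (Fin n) K, Aᵀ * G * A = Bᵀ * H * B → G = Uᵀ * H * U := by
    intro G H h
    have e : (A⁻¹)ᵀ * (Aᵀ * G * A) * A⁻¹ = G := by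
      calc (A⁻¹)ᵀ * (Aᵀ * G * A) * A⁻¹ = ((A⁻¹)ᵀ * Aᵀ) * G * (A * A⁻¹) := by
            simp only [Matrix.mul_assoc]
        _ = G := by rw [hAt, hAi, one_mul, mul_one]
    rw [← e, h, hUdef, Matrix.transpose_mul]
    simp only [Matrix.mul_assoc]
  have k1 := key _ _ h1
  have k2 := key _ _ h2
  have hG1 : (gr 0 n f (1 : K[X])).det ≠ 0 := by
    rw [(gdt K n f hf hn).1]
    exact pow_ne_zero _ (by simp)
  have hMβ : (mulM n f β).det ≠ 0 := by
    obtain ⟨a, b, hab⟩ := hβ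
    intro h
    have h3 : mulM n f (a * β) = 1 := by
      rw [← mm_one hf hn]
      exact mm_congr hf ⟨-b, by linear_combination hab⟩
    rw [mm_mul hf hn] at h3
    have h4 := congrArg Matrix.det h3
    rw [Matrix.det_mul, h, mul_zero, Matrix.det_one] at h4
    exact zero_ne_one h4
  have hUd : U.det ≠ 0 := by
    intro h
    have := congrArg Matrix.det hUA
    rw [Matrix.det_mul, h, zero_mul] at this
    exact hB this.symm
  rw [gr_sh, gr_sh, gr_mm hf hn (α * X), gr_mm hf hn (β * X), mm_mul hf hn, mm_mul hf hn] at k2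
  rw [gr_mm hf hn α, gr_mm hf hn β] at k1
  have hcomm : U * mulM n f X = mulM n f X * U := by
    obtain ⟨Q, hQ⟩ : ∃ Q, Q = Uᵀ * (gr 0 n f 1 * mulM n f β) := ⟨_, rfl⟩
    have hQd : IsUnit Q.det := by
      rw [hQ, Matrix.det_mul, Matrix.det_mul, Matrix.det_transpose, isUnit_iff_ne_zero]
      exact mul_ne_zero hUd (mul_ne_zero hG1 hMβ)
    have e1 : Q * (U * mulM n f X) = Q * (mulM n f X * U) := by
      calc Q * (U * mulM n f X) = (Uᵀ * (gr 0 n f 1 * mulM n f β) * U) * mulM n f X := by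
            rw [hQ]
            simp only [Matrix.mul_assoc]
        _ = gr 0 n f 1 * mulM n f α * mulM n f X := by rw [← k1]
        _ = Q * (mulM n f X * U) := by
            rw [Matrix.mul_assoc (gr 0 n f 1), k2, hQ]
            simp only [Matrix.mul_assoc]
    have e2 := congrArg (fun M => Q⁻¹ * M) e1
    simpa [← Matrix.mul_assoc, Matrix.nonsing_inv_mul _ hQd] using e2
  obtain ⟨s, hs⟩ := comm_eq hf hn h0 hcomm
  have hadj : (mulM n f s)ᵀ * gr 0 n f (1 : K[X]) = gr 0 n f 1 * mulM n f s := by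
    have := gr_tr 0 n f s
    rw [gr_mm hf hn s, Matrix.transpose_mul, gr_tr] at this
    exact this
  have hαβ : mulM n f α = mulM n f (β * s ^ 2) := by
    have e1 : gr 0 n f 1 * mulM n f α = gr 0 n f 1 * mulM n f (β * s ^ 2) := by
      rw [k1, hs, ← Matrix.mul_assoc, hadj, show β * s ^ 2 = s * (β * s) by ring, mm_mul hf hn,
        mm_mul hf hn]
      simp only [Matrix.mul_assoc]
    have e2 := congrArg (fun M => (gr 0 n f (1 : K[X]))⁻¹ * M) e1
    simpa [← Matrix.mul_assoc, Matrix.nonsing_inv_mul _ (isUnit_iff_ne_zero.2 hG1)] using e2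
  have hd := mm_inj hf hn hαβ
  refine ⟨⟨s, hd⟩, fun hab => ?_⟩
  subst hab
  have h5 : f ∣ α * ((1 - s) * (1 + s)) := by
    have : α * ((1 - s) * (1 + s)) = α - α * s ^ 2 := by ring
    rw [this]
    exact hd
  have h6 := (hα.symm).dvd_of_dvd_mul_left h5
  rcases hirr.prime.dvd_or_dvd h6 with h7 | h7
  · left
    have h8 : U = 1 := by
      rw [hs, ← mm_one hf hn]
      exact (mm_congr hf h7).symm
    rw [← hUA, h8, one_mul]
  · right
    have h8 : U = -1 := by
      rw [hs, ← mm_one hf hn, ← mm_neg]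
      refine mm_congr hf ?_
      have : s - -1 = 1 + s := by ring
      rw [this]
      exact h7
    rw [← hUA, h8, neg_mul, one_mul, neg_neg]

end ORBaux

/-- ORB. -/
theorem orb : ORBStmt := by
  intro K _ f α β A B hf hn hirr hα hβ hA hB h1 h2
  exact ORBaux.core hf hn (by norm_num) hirr hα hβ hA hB h1 h2

end Pool.NFA
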